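import Mathlib

/-!
# Two types of perfect factors
-/

set_option autoImplicit false

namespace Pool.Agent.RadIndex

/-- `S` has no nontrivial linear characters, `k(S)^4 ≤ |S|`, and `|S| ≤ |S : K|^4` for all proper
subgroups `K` -/
def MidType (S : Type) [Group S] : Prop :=
  (∀ f : S →* ℂˣ, f = 1) ∧ Nat.card (ConjClasses S) ^ 4 ≤ Nat.card S ∧
    ∀ K : Subgroup S, K ≠ ⊤ → Nat.card S ≤ K.index ^ 4

/-- `S` is isomorphic to `PSL_2(q)` for some `q ≥ 4` -/
def PSLType (S : Type) [Group S] : Prop :=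
  ∃ (F : Type) (_ : Field F) (_ : Finite F), 4 ≤ Nat.card F ∧
    Nonempty (S ≃* Matrix.ProjectiveSpecialLinearGroup (Fin 2) F)

end Pool.Agent.RadIndex
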