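import Pool.Agent.Work.MP_76dc41_al.Bd.B06
import Pool.Agent.Work.MP_76dc41_al.Bd.B05

/-!
# Products of perfect groups: the theorem
-/

set_option autoImplicit false

namespace Pool.Agent.RadIndex

theorem perfect_factors (G : Type) [Group G] [Finite G] (N : Subgroup G) [N.Normal]
    (ι : Type) [Fintype ι] (S : ι → Type) [∀ i, Group (S i)] [∀ i, Finite (S i)]
    (H : Type) [Group H] [Finite H] (hS : ∀ i, MidType (S i) ∨ PSLType (S i))
    (hH : Nat.card (ConjClasses H) ^ 8 ≤ Nat.card H)
    (e : Nonempty (G ⧸ N ≃* (∀ i, S i) × H)) :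
    (Nat.card (G ⧸ N) : ℝ) ≤ acd G ^ 4 := by
  have burn := prf_BURN
  have iso := prf_ISO
  have inter := prf_INTER
  have transfer := prf_TRANSFER burn
  have core := prf_CORE transfer inter iso burn
  have eone := prf_EONE core iso
  have bij := prf_BIJ eone iso
  have zspan := prf_ZSPAN core
  have up := prf_UP bij prf_IDEM
  have down := prf_DOWN bij zspan prf_ORTH prf_WOB prf_TRANS
  have step := prf_STEP prf_TRANS prf_ORB prf_WOB eone up down
  have ext := prf_EXT burn (prf_FORM inter) transfer iso
  have fix := prf_FIX ext prf_GALL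
  have deg := prf_DEG burn ext fix transfer iso
  have one := prf_ONE prf_GALL iso prf_BLOCK
  have unip := prf_UNIP prf_TRICK prf_PRIME
  have psl := prf_PSL prf_BLOCK one deg prf_IDX prf_NUM prf_SMALL unip prf_CARD prf_KPSL prf_PERF
  exact final step prf_ACD (prf_FEW prf_BLOCK) (prf_MID prf_BLOCK) prf_PERF psl G N ι S H hS hH e

end Pool.Agent.RadIndex
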